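import Pool.Agent.Helper61.QE.St4
import Pool.Agent.Helper79.QD.M_RIJ

/-!
# Project QD (MP_d112a4_gt), PART E, module RIE: the maps `f_t`
-/

open MeasureTheory Set Filter Topology Complex
open scoped ContDiff ComplexConjugate ENNReal

namespace Pool.Agent.Helper75.QE

open Pool.Agent.Helper68.QC Pool.Agent.Helper61.QE

private theorem sol_restrict {μ κ f : ℂ → ℂ} (h : Sol μ univ f) (he : ∀ z ∈ D, κ z = μ z) :
    Sol κ D f := by
  obtain ⟨a, b, hWD, hb⟩ := h
  refine ⟨a, b, ⟨hWD.cont.mono (subset_univ _), fun K _ hc => hWD.l2a K (subset_univ _) hc,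
    fun K _ hc => hWD.l2b K (subset_univ _) hc,
    fun φ hφ => hWD.dz φ ⟨hφ.smooth, hφ.cpt, subset_univ _⟩,
    fun φ hφ => hWD.dzb φ ⟨hφ.smooth, hφ.cpt, subset_univ _⟩⟩, ?_⟩
  rw [Measure.restrict_univ] at hb
  filter_upwards [ae_restrict_of_ae hb, ae_restrict_mem Metric.isOpen_ball.measurableSet]
    with z h1 h2
  rw [h1, he z h2]

private theorem img_ft (κ h : ℂ → ℂ) (t : ℂ) (S : Set ℂ) :
    ft κ h t '' (nq (syY κ) '' S) = nq (muT κ h t) '' S := by
  rw [image_image]
  refine image_congr fun z _ => ?_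
  unfold ft
  rw [Homeomorph.symm_apply_apply]

/-- **RIE** -/
theorem pRIE (hEX : StEX) (hFAC : StFAC) (hEDD : StEDD) (hCOE : StCOE) : StRIE := by
  intro Γ _ s F h κ k hFu hFD hAb hk hKap
  have hk0 : 0 ≤ k := (norm_nonneg _).trans (hKap.bel.le 0)
  obtain ⟨hmu, -, hbs, -, hsym, heq⟩ := hCOE Γ s h κ k hFu.su ⟨hAb.hol, hAb.eqv⟩ hk0 hKap
  obtain ⟨eD, -, -, -, -, -, -⟩ := hEDD k hk (syY κ) hbs hsym
  refine ⟨⟨?_, ?_⟩, ?_⟩
  · exact (nq (syY κ)).measurableEmbedding.measurableSet_image.2 hFD.meas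
  · obtain ⟨r, hr1, hr⟩ := hFD.cpt
    rcases lt_or_ge r 0 with hneg | hr0
    · refine ⟨0, one_pos, ?_⟩
      rintro _ ⟨z, hz, rfl⟩
      exact absurd ((norm_nonneg z).trans (hr z hz)) (not_le.2 hneg)
    · obtain ⟨z0, hz0, hmax⟩ := (isCompact_closedBall (0 : ℂ) r).exists_isMaxOn
        ⟨0, Metric.mem_closedBall_self hr0⟩
        ((nq (syY κ)).continuous.norm.continuousOn)
      refine ⟨‖nq (syY κ) z0‖, ?_, ?_⟩
      · have h0 : z0 ∈ D := by
          rw [Metric.mem_closedBall, dist_zero_right] at hz0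
          rw [Metric.mem_ball, dist_zero_right]
          linarith
        have h1 : nq (syY κ) z0 ∈ D := by
          rw [← eD]; exact mem_image_of_mem _ h0
        rw [Metric.mem_ball, dist_zero_right] at h1
        exact h1
      · rintro _ ⟨z, hz, rfl⟩
        exact hmax (show z ∈ Metric.closedBall (0 : ℂ) r by
          rw [Metric.mem_closedBall, dist_zero_right]; exact hr z hz)
  · intro t ht
    rw [Metric.mem_ball, dist_zero_right] at ht
    have hkk : max k ‖t‖ < 1 := max_lt hk ht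
    have hs := (hEX (max k ‖t‖) hkk (muT κ h t) (hmu t).1).sol
    have hs2 : Sol (syY κ) D (nq (muT κ h t)) := sol_restrict hs (fun z hz => heq z hz t)
    have hd := hFAC k hk (syY κ) hbs D (nq (muT κ h t)) Metric.isOpen_ball hs2
    rw [eD] at hd
    have hd' : DifferentiableOn ℂ (ft κ h t) D := hd
    have hi : InjOn (ft κ h t) D :=
      ((nq (muT κ h t)).injective.comp (nq (syY κ)).symm.injective).injOn
    refine ⟨hd', hi, (Helper79.QD.hRIJ D (ft κ h t) Metric.isOpen_ball hd' hi).1, ?_,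
      img_ft κ h t F, (nq (muT κ h t)).continuous.comp (nq (syY κ)).symm.continuous⟩
    have h2 := img_ft κ h t D
    rw [eD] at h2
    exact h2

end Pool.Agent.Helper75.QE
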